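import Pool.Agent.H252Z.Mirror.Defs

set_option autoImplicit false

open Pointwise

namespace Pool.Agent.H252Z.Mirror

section General

variable {d p : ℕ} {q : Fin p → ℕ}

theorem mem_polyPart (v : Idx q → Fin d → ℤ) (i : Fin p) (w : Fin (q i) → ℝ)
    (h0 : ∀ j, 0 ≤ w j) (h1 : ∑ j, w j ≤ 1) :
    ∑ j, w j • toReal (v ⟨i, j⟩) ∈ polyPart v i := by
  have hc : Convex ℝ (polyPart v i) := convex_convexHull ℝ _
  have := hc.sum_mem (t := (Finset.univ : Finset (Option (Fin (q i)))))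
    (w := fun o => o.elim (1 - ∑ j, w j) w) (z := fun o => o.elim 0 fun j => toReal (v ⟨i, j⟩))
    (by
      rintro (_ | j) _
      · simpa using h1
      · exact h0 j)
    (by simp [Fintype.sum_option])
    (by
      rintro (_ | j) _
      · exact subset_convexHull ℝ _ (Set.mem_insert _ _)
      · exact subset_convexHull ℝ _ (Set.mem_insert_of_mem _ ⟨j, rfl⟩))
  simpa [Fintype.sum_option] using this

theorem mem_poly (v : Idx q → Fin d → ℤ) (w : Idx q → ℝ)
    (h0 : ∀ a, 0 ≤ w a) (h1 : ∀ i, ∑ j, w ⟨i, j⟩ ≤ 1) :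
    ∑ i, ∑ j, w ⟨i, j⟩ • toReal (v ⟨i, j⟩) ∈ poly v :=
  Set.finsetSum_mem_finsetSum _ _ _ fun i _ =>
    mem_polyPart v i (fun j => w ⟨i, j⟩) (fun j => h0 _) (h1 i)

theorem poly_le (v : Idx q → Fin d → ℤ) (c : Fin d → ℝ) (h : Fin p → ℝ) (h0 : ∀ i, 0 ≤ h i)
    (hv : ∀ a : Idx q, ∑ t, c t * toReal (v a) t ≤ h a.1) (x : Fin d → ℝ) (hx : x ∈ poly v) :
    ∑ t, c t * x t ≤ ∑ i, h i := by
  obtain ⟨y, hy, rfl⟩ := (Set.mem_fintype_sum _ _).1 hx
  have key : ∀ i, ∑ t, c t * y i t ≤ h i := by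
    intro i
    have hconv : Convex ℝ {z : Fin d → ℝ | ∑ t, c t * z t ≤ h i} := by
      apply convex_halfSpace_le
      constructor
      · intro a b
        simp [mul_add, Finset.sum_add_distrib]
      · intro r a
        simp [Finset.mul_sum, mul_left_comm]
    refine convexHull_min ?_ hconv (hy i)
    rintro z (rfl | ⟨j, rfl⟩)
    · simpa using h0 i
    · exact hv ⟨i, j⟩
  calc ∑ t, c t * (∑ i, y i) t = ∑ i, ∑ t, c t * y i t := by
        rw [Finset.sum_comm]
        simp [Finset.mul_sum]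
    _ ≤ ∑ i, h i := Finset.sum_le_sum fun i _ => key i

theorem interior_lt {S : Set (Fin d → ℝ)} (c : Fin d → ℝ) (M : ℝ)
    (hS : ∀ x ∈ S, ∑ t, c t * x t ≤ M) (hc : 0 < ∑ t, c t * c t) (x : Fin d → ℝ)
    (hx : x ∈ interior S) : ∑ t, c t * x t < M := by
  have hcont : Continuous fun s : ℝ => x + s • c := by fun_prop
  have h1 : ∀ᶠ s in nhds (0 : ℝ), x + s • c ∈ S := by
    have : S ∈ nhds ((fun s : ℝ => x + s • c) 0) := by
      simpa using mem_interior_iff_mem_nhds.1 hx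
    exact hcont.continuousAt this
  obtain ⟨s, hs, hs0⟩ : ∃ s : ℝ, x + s • c ∈ S ∧ 0 < s := by
    have h2 : ∀ᶠ s in nhdsWithin (0 : ℝ) (Set.Ioi 0), x + s • c ∈ S :=
      h1.filter_mono nhdsWithin_le_nhds
    exact (h2.and self_mem_nhdsWithin).exists
  have h3 := hS _ hs
  have h4 : ∑ t, c t * (x + s • c) t = ∑ t, c t * x t + s * ∑ t, c t * c t := by
    simp [mul_add, Finset.sum_add_distrib, Finset.mul_sum, mul_left_comm]
  have h5 := mul_pos hs0 hc
  linarith

theorem coeff_mul_of_support {σ : Type} [DecidableEq σ] (g f : MvPowerSeries σ ℚ) (k : σ →₀ ℕ)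
    (T : Finset (σ →₀ ℕ)) (hT : ∀ b ∈ T, b ≤ k)
    (hf : ∀ b ≤ k, MvPowerSeries.coeff b f ≠ 0 → b ∈ T) :
    MvPowerSeries.coeff k (g * f) =
      ∑ b ∈ T, MvPowerSeries.coeff (k - b) g * MvPowerSeries.coeff b f := by
  rw [MvPowerSeries.coeff_mul]
  symm
  refine Finset.sum_bij_ne_zero (fun b _ _ => (k - b, b)) ?_ ?_ ?_ ?_
  · intro b hb _
    rw [Finset.HasAntidiagonal.mem_antidiagonal]
    exact tsub_add_cancel_of_le (hT b hb)
  · intro b _ _ b' _ _ h
    exact congrArg Prod.snd h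
  · intro x hx hne
    rw [Finset.HasAntidiagonal.mem_antidiagonal] at hx
    have hle : x.2 ≤ k := hx ▸ le_add_self
    have h1 : k - x.2 = x.1 := by rw [← hx, add_tsub_cancel_right]
    refine ⟨x.2, hf _ hle (right_ne_zero_of_mul hne), by rwa [h1], by rw [h1]⟩
  · intro b _ _
    rfl

theorem harm_zero : harm 0 = 0 := by simp [harm]

theorem combC_zero : combC (0 : Idx q →₀ ℕ) = 1 := by simp [combC]

theorem inK0_zero (v : Idx q → Fin d → ℤ) : InK0 v 0 := by simp [InK0]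

theorem coeff_phi0 (v : Idx q → Fin d → ℤ) (k : Idx q →₀ ℕ) (hk : InK0 v k) :
    MvPowerSeries.coeff k (phi0 v) = combC k := if_pos hk

theorem coeff_phi0_ne (v : Idx q → Fin d → ℤ) (k : Idx q →₀ ℕ)
    (hk : MvPowerSeries.coeff k (phi0 v) ≠ 0) : InK0 v k := by
  by_contra h
  exact hk (if_neg h)

theorem coeff_phi (v : Idx q → Fin d → ℤ) (a : Idx q) (k : Idx q →₀ ℕ) (hk : InK0 v k) :
    MvPowerSeries.coeff k (phi v a) =
      combC k * (harm (∑ m : Fin (q a.1), k ⟨a.1, m⟩) - harm (k a)) := if_pos hk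

theorem inv_mul_phi0 (v : Idx q → Fin d → ℤ) : (phi0 v)⁻¹ * phi0 v = 1 := by
  apply MvPowerSeries.inv_mul_cancel
  rw [← MvPowerSeries.coeff_zero_eq_constantCoeff_apply, coeff_phi0 v 0 (inK0_zero v), combC_zero]
  exact one_ne_zero

end General

/-- The vectors of the example. -/
def exV : Idx (p := 4) (fun _ => 2) → Fin 4 → ℤ := fun a =>
  ![![![1, 0, 0, 0], ![-1, 0, 1, 0]], ![![0, 1, 0, 0], ![0, -1, 1, 0]],
    ![![0, 0, -1, 0], ![0, 0, 0, 1]], ![![0, 0, 0, -1], ![0, 0, -1, -1]]] a.1 a.2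

/-- Elements of `K₀` used in the example. -/
noncomputable def exK (a b : ℕ) : Idx (p := 4) (fun _ => 2) →₀ ℕ :=
  Finsupp.equivFunOnFinite.symm fun c => ![![a, a], ![b, b], ![a + b, 0], ![0, 0]] c.1 c.2

theorem exK_apply (a b : ℕ) (i : Fin 4) (j : Fin 2) :
    exK a b ⟨i, j⟩ = ![![a, a], ![b, b], ![a + b, 0], ![0, 0]] i j := rfl

theorem exK_in (a b : ℕ) : InK0 exV (exK a b) := by
  unfold InK0
  funext t
  fin_cases t <;> simp [Fintype.sum_sigma, Fin.sum_univ_succ, exK_apply, exV]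

theorem exK_of_le (a b : ℕ) (k : Idx (p := 4) (fun _ => 2) →₀ ℕ) (hk : InK0 exV k)
    (hle : k ≤ exK a b) : ∃ a' ≤ a, ∃ b' ≤ b, k = exK a' b' := by
  have h0 := congrFun hk 0
  have h1 := congrFun hk 1
  have h2 := congrFun hk 2
  have l0 := hle ⟨0, 0⟩
  have l1 := hle ⟨1, 0⟩
  have l2 := hle ⟨2, 1⟩
  have l3 := hle ⟨3, 0⟩
  have l4 := hle ⟨3, 1⟩
  simp [Fintype.sum_sigma, Fin.sum_univ_succ, exV] at h0 h1 h2
  simp [exK_apply] at l0 l1 l2 l3 l4
  refine ⟨k ⟨0, 0⟩, l0, k ⟨1, 0⟩, l1, ?_⟩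
  ext ⟨i, j⟩
  fin_cases i <;> fin_cases j <;> simp [exK_apply] <;> omega

theorem exK_le {a b a' b' : ℕ} (ha : a' ≤ a) (hb : b' ≤ b) : exK a' b' ≤ exK a b := by
  rintro ⟨i, j⟩
  fin_cases i <;> fin_cases j <;> simp [exK_apply] <;> omega

theorem exK_sub {a b a' b' : ℕ} (ha : a' ≤ a) (hb : b' ≤ b) :
    exK a b - exK a' b' = exK (a - a') (b - b') := by
  ext ⟨i, j⟩
  fin_cases i <;> fin_cases j <;> simp [exK_apply] <;> omega

theorem exK_inj {a b a' b' : ℕ} (h : exK a b = exK a' b') : a = a' ∧ b = b' := by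
  have h0 := DFunLike.congr_fun h ⟨0, 0⟩
  have h1 := DFunLike.congr_fun h ⟨1, 0⟩
  exact ⟨h0, h1⟩

theorem ex_rec (g : MvPowerSeries (Idx (p := 4) (fun _ => 2)) ℚ) (a b : ℕ) :
    MvPowerSeries.coeff (exK a b) (g * phi0 exV) =
      ∑ a' ∈ Finset.range (a + 1), ∑ b' ∈ Finset.range (b + 1),
        MvPowerSeries.coeff (exK (a - a') (b - b')) g * combC (exK a' b') := by
  classical
  rw [coeff_mul_of_support g (phi0 exV) (exK a b)
    ((Finset.range (a + 1) ×ˢ Finset.range (b + 1)).image fun x => exK x.1 x.2)]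
  · rw [Finset.sum_image, Finset.sum_product]
    · refine Finset.sum_congr rfl fun a' ha => Finset.sum_congr rfl fun b' hb => ?_
      rw [exK_sub (Nat.lt_succ_iff.1 (Finset.mem_range.1 ha))
        (Nat.lt_succ_iff.1 (Finset.mem_range.1 hb)), coeff_phi0 _ _ (exK_in _ _)]
    · intro x _ y _ h
      exact Prod.ext (exK_inj h).1 (exK_inj h).2
  · intro c hc
    obtain ⟨x, hx, rfl⟩ := Finset.mem_image.1 hc
    simp only [Finset.mem_product, Finset.mem_range] at hx
    exact exK_le (by omega) (by omega)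
  · intro c hc hne
    obtain ⟨a', ha, b', hb, rfl⟩ := exK_of_le a b c (coeff_phi0_ne _ _ hne) hc
    exact Finset.mem_image.2 ⟨(a', b'), by simp; omega, rfl⟩

theorem ex_coeff :
    MvPowerSeries.coeff (exK 1 1) (phi exV ⟨2, 1⟩ * (phi0 exV)⁻¹) = -2 := by
  set g := phi exV ⟨2, 1⟩ * (phi0 exV)⁻¹ with hg
  have hmul : g * phi0 exV = phi exV ⟨2, 1⟩ := by rw [hg, mul_assoc, inv_mul_phi0, mul_one]
  have h00 := ex_rec g 0 0
  have h10 := ex_rec g 1 0
  have h01 := ex_rec g 0 1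
  have h11 := ex_rec g 1 1
  rw [hmul, coeff_phi _ _ _ (exK_in _ _)] at h00 h10 h01 h11
  simp [Finset.sum_range_succ, combC, harm, Fin.prod_univ_succ, Fin.sum_univ_succ, exK_apply,
    Nat.factorial] at h00 h10 h01 h11
  linarith

theorem ex_interior : (0 : Fin 4 → ℝ) ∈ interior (poly exV) := by
  rw [mem_interior_iff_mem_nhds]
  have hb : Metric.ball (0 : Fin 4 → ℝ) (1 / 20) ⊆ poly exV := by
    intro x hx
    have hx' : ∀ t, |x t| < 1 / 20 := fun t => by
      have := (pi_norm_lt_iff (by norm_num : (0 : ℝ) < 1 / 20)).1 (mem_ball_zero_iff.1 hx) t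
      simpa using this
    have h0 := abs_lt.1 (hx' 0)
    have h1 := abs_lt.1 (hx' 1)
    have h2 := abs_lt.1 (hx' 2)
    have h3 := abs_lt.1 (hx' 3)
    have := mem_poly exV (fun c => ![![1 / 4 + x 0, 1 / 4], ![1 / 4 + x 1, 1 / 4],
      ![1 / 2 - x 2, 1 / 4 + x 3], ![1 / 4, 0]] c.1 c.2) (by
        rintro ⟨i, j⟩
        fin_cases i <;> fin_cases j <;> simp <;> linarith) (by
        intro i
        fin_cases i <;> simp [Fin.sum_univ_succ] <;> linarith)
    convert this using 1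
    funext t
    fin_cases t <;> simp [Fin.sum_univ_succ, exV, toReal] <;> ring
  exact Filter.mem_of_superset (Metric.ball_mem_nhds _ (by norm_num)) hb

theorem ex_span : Submodule.span ℤ (Set.range exV) = ⊤ := by
  rw [eq_top_iff]
  intro x _
  have hm : ∀ a, exV a ∈ Submodule.span ℤ (Set.range exV) := fun a =>
    Submodule.subset_span ⟨a, rfl⟩
  have : x = x 0 • exV ⟨0, 0⟩ + x 1 • exV ⟨1, 0⟩ + (-x 2) • exV ⟨2, 0⟩ + x 3 • exV ⟨2, 1⟩ := by
    funext t
    fin_cases t <;> simp [exV]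
  rw [this]
  exact add_mem (add_mem (add_mem (Submodule.smul_mem _ _ (hm _)) (Submodule.smul_mem _ _ (hm _)))
    (Submodule.smul_mem _ _ (hm _))) (Submodule.smul_mem _ _ (hm _))

theorem ex_bound (c h : Fin 4 → ℝ) (h0 : ∀ i, 0 ≤ h i)
    (hv : ∀ a : Idx (p := 4) (fun _ => 2), ∑ t, c t * toReal (exV a) t ≤ h a.1)
    (hc : 0 < ∑ t, c t * c t) (x : Fin 4 → ℝ) (hx : x ∈ interior (poly exV)) :
    ∑ t, c t * x t < ∑ i, h i :=
  interior_lt c _ (poly_le exV c h h0 hv) hc x hx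

theorem ex_fano : Fano exV := by
  intro x
  refine ⟨fun hx => ?_, fun h => ?_⟩
  · have key : ∀ c h : Fin 4 → ℝ, (∀ i, 0 ≤ h i) →
        (∀ (i : Fin 4) (j : Fin 2), ∑ t, c t * toReal (exV ⟨i, j⟩) t ≤ h i) →
        0 < ∑ t, c t * c t → ∑ t, c t * toReal x t < ∑ i, h i :=
      fun c h h0 hv hc => ex_bound c h h0 (fun a => hv a.1 a.2) hc _ hx
    have b1 := key ![1, 0, 0, 0] ![1, 0, 0, 0] (by intro i; fin_cases i <;> simp)
      (by intro i j; fin_cases i <;> fin_cases j <;> simp [Fin.sum_univ_succ, exV, toReal])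
      (by simp [Fin.sum_univ_succ])
    have b2 := key ![-1, 0, 0, 0] ![1, 0, 0, 0] (by intro i; fin_cases i <;> simp)
      (by intro i j; fin_cases i <;> fin_cases j <;> simp [Fin.sum_univ_succ, exV, toReal])
      (by simp [Fin.sum_univ_succ])
    have b3 := key ![0, 1, 0, 0] ![0, 1, 0, 0] (by intro i; fin_cases i <;> simp)
      (by intro i j; fin_cases i <;> fin_cases j <;> simp [Fin.sum_univ_succ, exV, toReal])
      (by simp [Fin.sum_univ_succ])
    have b4 := key ![0, -1, 0, 0] ![0, 1, 0, 0] (by intro i; fin_cases i <;> simp)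
      (by intro i j; fin_cases i <;> fin_cases j <;> simp [Fin.sum_univ_succ, exV, toReal])
      (by simp [Fin.sum_univ_succ])
    have b5 := key ![0, 0, 0, 1] ![0, 0, 1, 0] (by intro i; fin_cases i <;> simp)
      (by intro i j; fin_cases i <;> fin_cases j <;> simp [Fin.sum_univ_succ, exV, toReal])
      (by simp [Fin.sum_univ_succ])
    have b6 := key ![0, 0, 0, -1] ![0, 0, 0, 1] (by intro i; fin_cases i <;> simp)
      (by intro i j; fin_cases i <;> fin_cases j <;> simp [Fin.sum_univ_succ, exV, toReal])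
      (by simp [Fin.sum_univ_succ])
    have b7 := key ![1, 1, 2, 0] ![1, 1, 0, 0] (by intro i; fin_cases i <;> simp)
      (by intro i j; fin_cases i <;> fin_cases j <;>
        simp [Fin.sum_univ_succ, exV, toReal] <;> norm_num)
      (by simp [Fin.sum_univ_succ]; norm_num)
    have b8 := key ![-1, -1, -2, 2] ![0, 0, 2, 0] (by intro i; fin_cases i <;> simp)
      (by intro i j; fin_cases i <;> fin_cases j <;>
        simp [Fin.sum_univ_succ, exV, toReal] <;> norm_num)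
      (by simp [Fin.sum_univ_succ]; norm_num)
    simp [Fin.sum_univ_succ, toReal] at b1 b2 b3 b4 b5 b6 b7 b8
    have c1 : x 0 < 1 := by exact_mod_cast b1
    have c2 : -x 0 < 1 := by exact_mod_cast b2
    have c3 : x 1 < 1 := by exact_mod_cast b3
    have c4 : -x 1 < 1 := by exact_mod_cast b4
    have c5 : x 3 < 1 := by exact_mod_cast b5
    have c6 : -x 3 < 1 := by exact_mod_cast b6
    have c7 : x 0 + x 1 + 2 * x 2 < 2 := by
      have : (x 0 : ℝ) + x 1 + 2 * x 2 < 2 := by linarith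
      exact_mod_cast this
    have c8 : -x 0 - x 1 - 2 * x 2 + 2 * x 3 < 2 := by
      have : -(x 0 : ℝ) - x 1 - 2 * x 2 + 2 * x 3 < 2 := by linarith
      exact_mod_cast this
    funext t
    fin_cases t <;> simp <;> omega
  · subst h
    have : toReal (0 : Fin 4 → ℤ) = 0 := by funext t; simp [toReal]
    rw [this]
    exact ex_interior

theorem ex_inj : Function.Injective exV := by decide

theorem ex_ne (a : Idx (p := 4) (fun _ => 2)) : exV a ≠ 0 := by revert a; decide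

end Pool.Agent.H252Z.Mirror
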