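import Mathlib

/-! Definitions for the naive mirror map of lattice data `v i j`. -/

set_option autoImplicit false

open Pointwise

namespace Pool.Agent.H252Z.Mirror

variable {d p : ℕ} {q : Fin p → ℕ}

/-- The index set `I = {(i, j)}`. -/
abbrev Idx (q : Fin p → ℕ) : Type := Σ i : Fin p, Fin (q i)

/-- `k ∈ K₀`: the non-negative vector `k` lies in the kernel of `V`. -/
def InK0 (v : Idx q → Fin d → ℤ) (k : Idx q →₀ ℕ) : Prop :=
  ∑ a : Idx q, (k a : ℤ) • v a = 0

/-- `C(k)`: the product over the groups of the multinomial coefficients. -/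
def combC (k : Idx q →₀ ℕ) : ℚ :=
  ∏ l : Fin p, ((∑ j : Fin (q l), k ⟨l, j⟩).factorial : ℚ) /
    ∏ j : Fin (q l), ((k ⟨l, j⟩).factorial : ℚ)

/-- The harmonic number `H(n) = 1 + 1/2 + ... + 1/n`. -/
def harm (n : ℕ) : ℚ := ∑ r ∈ Finset.range n, 1 / ((r : ℚ) + 1)

open Classical in
/-- The series `φ₀`. -/
noncomputable def phi0 (v : Idx q → Fin d → ℤ) : MvPowerSeries (Idx q) ℚ :=
  fun k => if InK0 v k then combC k else 0

open Classical in
/-- The series `φ_{ij}`, for `a = (i, j)`. -/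
noncomputable def phi (v : Idx q → Fin d → ℤ) (a : Idx q) : MvPowerSeries (Idx q) ℚ :=
  fun k => if InK0 v k then
    combC k * (harm (∑ m : Fin (q a.1), k ⟨a.1, m⟩) - harm (k a)) else 0

/-- A lattice vector as a real vector. -/
def toReal (x : Fin d → ℤ) : Fin d → ℝ := fun t => (x t : ℝ)

/-- `Δ_i`: the convex hull of `0` and the vectors of group `i`. -/
def polyPart (v : Idx q → Fin d → ℤ) (i : Fin p) : Set (Fin d → ℝ) :=
  convexHull ℝ (insert 0 (Set.range fun j : Fin (q i) => toReal (v ⟨i, j⟩)))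

/-- `Δ = Δ_1 + ... + Δ_p` (Minkowski sum). -/
def poly (v : Idx q → Fin d → ℤ) : Set (Fin d → ℝ) := ∑ i : Fin p, polyPart v i

/-- The standing assumptions: `0` is interior to `Δ` and the vectors span the lattice. -/
def Standing (v : Idx q → Fin d → ℤ) : Prop :=
  (0 : Fin d → ℝ) ∈ interior (poly v) ∧ Submodule.span ℤ (Set.range v) = ⊤

/-- Fano: `0` is the only lattice point in the interior of `Δ`. -/
def Fano (v : Idx q → Fin d → ℤ) : Prop :=
  ∀ x : Fin d → ℤ, toReal x ∈ interior (poly v) ↔ x = 0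

end Pool.Agent.H252Z.Mirror
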